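import Pool.Agent.Helper17.Rg.Goals

/-!
# RG-E1: exact relations in windows (MP_70814c_an)
-/

set_option autoImplicit false

namespace Pool.Agent.Helper9.Rg

open Pool.Agent.Helper17.Rg

theorem gb_pos (b : Bool) : 0 < gb b := by
  unfold gb
  split_ifs <;> norm_num

/-- the conclusion for one pair `N, l, P` -/
def Con {r : ℕ} (g : Fin r → Bool) (U : Finset (Fin r → ℚ)) (N : ℕ) (l : Fin r → ℕ) (P : ℤ) :
    Prop :=
  ∃ u ∈ U, (P : ℚ) / 6 ^ N = ∑ t, u t / (gb (g t) : ℚ) ^ l t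

/-- the hypothesis -/
def Hyp {r : ℕ} (c : Fin r → ℚ) (g : Fin r → Bool) (C K : ℝ) (N : ℕ) (l : Fin r → ℕ) (P : ℤ) :
    Prop :=
  |(P : ℝ) / 6 ^ N - ∑ t, (c t : ℝ) / (gb (g t) : ℝ) ^ l t| ≤ K * (2 : ℝ) ^ (-C * N)

/-- the exponent of `2` in `6 ^ N / gb b ^ l` -/
def ea (N : ℕ) (b : Bool) (l : ℕ) : ℤ := if b then N else N - l

/-- the exponent of `3` in `6 ^ N / gb b ^ l` -/
def eb (N : ℕ) (b : Bool) (l : ℕ) : ℤ := if b then N - l else N

theorem ex_eq {F : Type*} [Field F] [CharZero F] (N : ℕ) (b : Bool) (l : ℕ) :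
    (2 : F) ^ ea N b l * 3 ^ eb N b l = 6 ^ N / (gb b : F) ^ l := by
  have h2 : (2 : F) ≠ 0 := two_ne_zero
  have h3 : (3 : F) ≠ 0 := three_ne_zero
  unfold ea eb gb
  cases b
  · simp only [Bool.false_eq_true, if_false]
    rw [zpow_sub₀ h2, zpow_natCast, zpow_natCast, zpow_natCast]
    push_cast
    rw [show (6 : F) = 2 * 3 by norm_num, mul_pow]
    ring
  · simp only [if_true]
    rw [zpow_sub₀ h3, zpow_natCast, zpow_natCast, zpow_natCast]
    push_cast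
    rw [show (6 : F) = 2 * 3 by norm_num, mul_pow]
    ring

theorem ex_le {H N : ℕ} (b : Bool) {l : ℕ} (hl : l ≤ H * N) :
    |ea N b l| ≤ ((H + 1 : ℕ) : ℤ) * N ∧ |eb N b l| ≤ ((H + 1 : ℕ) : ℤ) * N := by
  have h1 : (l : ℤ) ≤ (H : ℤ) * N := by exact_mod_cast hl
  have h2 : (0 : ℤ) ≤ (H : ℤ) * N := by positivity
  have h3 : (0 : ℤ) ≤ (N : ℤ) := by positivity
  have h4 : (0 : ℤ) ≤ (l : ℤ) := by positivity
  have e : ((H + 1 : ℕ) : ℤ) * N = (H : ℤ) * N + N := by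
    push_cast
    ring
  have hA : |(N : ℤ)| ≤ ((H + 1 : ℕ) : ℤ) * N := by
    rw [e, abs_le]
    constructor <;> linarith
  have hB : |(N : ℤ) - l| ≤ ((H + 1 : ℕ) : ℤ) * N := by
    rw [e, abs_le]
    constructor <;> linarith
  cases b
  · exact ⟨by simpa only [ea, Bool.false_eq_true, if_false] using hB,
      by simpa only [eb, Bool.false_eq_true, if_false] using hA⟩
  · exact ⟨by simpa only [ea, if_true] using hA, by simpa only [eb, if_true] using hB⟩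

/-- for large `N` the bound `K 6 ^ N 2 ^ (-C N)` is at most `2 ^ (-δ N)` -/
theorem large (C K : ℝ) (hC : Real.log 6 / Real.log 2 < C) :
    ∃ N0 : ℕ, ∀ N : ℕ, N0 ≤ N → (6 : ℝ) ^ N * (K * (2 : ℝ) ^ (-C * N)) ≤
      (2 : ℝ) ^ (-((C - Real.log 6 / Real.log 2) / 2) * N) := by
  set δ : ℝ := (C - Real.log 6 / Real.log 2) / 2 with hδ
  have hδ0 : 0 < δ := by
    rw [hδ]
    linarith
  have hb : (1 : ℝ) < 2 ^ δ := Real.one_lt_rpow (by norm_num) hδ0
  obtain ⟨N0, hN0⟩ := pow_unbounded_of_one_lt K hb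
  refine ⟨N0, fun N hN => ?_⟩
  have h6 : (6 : ℝ) ^ N = 2 ^ (Real.log 6 / Real.log 2 * N) := by
    have hl : (0 : ℝ) < Real.log 2 := Real.log_pos (by norm_num)
    rw [Real.rpow_def_of_pos (by norm_num : (0 : ℝ) < 2), ← Real.rpow_natCast,
      Real.rpow_def_of_pos (by norm_num : (0 : ℝ) < 6)]
    congr 1
    field_simp
  have hK : K ≤ (2 : ℝ) ^ (δ * N) := by
    calc K ≤ (2 ^ δ) ^ N0 := hN0.le
      _ ≤ (2 ^ δ) ^ N := pow_le_pow_right₀ hb.le hN
      _ = (2 : ℝ) ^ (δ * N) := by rw [Real.rpow_mul (by norm_num), Real.rpow_natCast]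
  rw [h6]
  have e1 : (2 : ℝ) ^ (Real.log 6 / Real.log 2 * N) * (K * (2 : ℝ) ^ (-C * N)) =
      K * (2 : ℝ) ^ (-(2 * δ) * N) := by
    rw [mul_left_comm, ← Real.rpow_add (by norm_num)]
    congr 2
    rw [hδ]
    ring
  rw [e1]
  calc K * (2 : ℝ) ^ (-(2 * δ) * N) ≤ (2 : ℝ) ^ (δ * N) * (2 : ℝ) ^ (-(2 * δ) * N) :=
        mul_le_mul_of_nonneg_right hK (by positivity)
    _ = (2 : ℝ) ^ (-δ * N) := by
        rw [← Real.rpow_add (by norm_num)]
        congr 1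
        ring

/-- the statement for a fixed number of terms -/
def ExR (C : ℝ) (r : ℕ) : Prop := ∀ (c : Fin r → ℚ) (g : Fin r → Bool) (H : ℕ) (K : ℝ),
  ∃ (N0 : ℕ) (U : Finset (Fin r → ℚ)), ∀ N : ℕ, N0 ≤ N → ∀ (l : Fin r → ℕ) (P : ℤ),
    (∀ t, l t ≤ H * N) → Hyp c g C K N l P → Con g U N l P

/-- the statement under a relation which does not involve `P` -/
def RelR (C : ℝ) (r : ℕ) : Prop := ∀ (c : Fin r → ℚ) (g : Fin r → Bool) (H : ℕ) (K : ℝ)
  (v : Fin r → ℚ), v ≠ 0 →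
  ∃ (N0 : ℕ) (U : Finset (Fin r → ℚ)), ∀ N : ℕ, N0 ≤ N → ∀ (l : Fin r → ℕ) (P : ℤ),
    (∀ t, l t ≤ H * N) → Hyp c g C K N l P → ∑ t, v t / (gb (g t) : ℚ) ^ l t = 0 → Con g U N l P

theorem step (h : SubQ) (C : ℝ) (hC : Real.log 6 / Real.log 2 < C) (r : ℕ) (hR : RelR C r) :
    ExR C r := by
  intro c g H K
  obtain ⟨N1, F, hF, h1⟩ := h r c (H + 1) ((C - Real.log 6 / Real.log 2) / 2) (by linarith)
  obtain ⟨N2, h2⟩ := large C K hC
  -- the sets for the single relations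
  have hex : ∀ u : ℚ × (Fin r → ℚ), ∃ (N0 : ℕ) (U : Finset (Fin r → ℚ)), u ≠ 0 →
      ∀ N : ℕ, N0 ≤ N → ∀ (l : Fin r → ℕ) (P : ℤ), (∀ t, l t ≤ H * N) → Hyp c g C K N l P →
      u.1 * P + ∑ i, u.2 i * (6 ^ N / (gb (g i) : ℚ) ^ l i) = 0 → Con g U N l P := by
    intro u
    by_cases hu1 : u.1 = 0
    · by_cases hu2 : u.2 = 0
      · exact ⟨0, ∅, fun hu => absurd (Prod.ext hu1 hu2) hu⟩
      · obtain ⟨N0, U, h3⟩ := hR c g H K u.2 hu2
        refine ⟨N0, U, fun _ N hN l P hl hyp hrel => h3 N hN l P hl hyp ?_⟩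
        rw [hu1, zero_mul, zero_add] at hrel
        have h6 : (6 : ℚ) ^ N ≠ 0 := by positivity
        have e : ∑ i, u.2 i * (6 ^ N / (gb (g i) : ℚ) ^ l i) =
            6 ^ N * ∑ i, u.2 i / (gb (g i) : ℚ) ^ l i := by
          rw [Finset.mul_sum]
          refine Finset.sum_congr rfl fun i _ => ?_
          ring
        rw [e] at hrel
        exact (mul_eq_zero.1 hrel).resolve_left h6
    · refine ⟨0, {fun t => -u.2 t / u.1}, fun _ N _ l P _ _ hrel =>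
        ⟨_, Finset.mem_singleton_self _, ?_⟩⟩
      have h6 : (6 : ℚ) ^ N ≠ 0 := by positivity
      have e : ∑ i, u.2 i * (6 ^ N / (gb (g i) : ℚ) ^ l i) =
          6 ^ N * ∑ i, u.2 i / (gb (g i) : ℚ) ^ l i := by
        rw [Finset.mul_sum]
        refine Finset.sum_congr rfl fun i _ => ?_
        ring
      rw [e] at hrel
      have e2 : ∑ t, -u.2 t / u.1 / (gb (g t) : ℚ) ^ l t =
          -(∑ i, u.2 i / (gb (g i) : ℚ) ^ l i) / u.1 := by
        rw [← Finset.sum_neg_distrib, Finset.sum_div]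
        refine Finset.sum_congr rfl fun i _ => ?_
        ring
      rw [e2, div_eq_div_iff h6 hu1]
      linarith
  choose Nu Uu hU using hex
  refine ⟨max (max N1 N2) (F.sup Nu), F.biUnion Uu, fun N hN l P hl hyp => ?_⟩
  have hN1 : N1 ≤ N := le_trans (le_trans (le_max_left _ _) (le_max_left _ _)) hN
  have hN2 : N2 ≤ N := le_trans (le_trans (le_max_right _ _) (le_max_left _ _)) hN
  have hN3 : F.sup Nu ≤ N := le_trans (le_max_right _ _) hN
  have hb : |(P : ℝ) - ∑ i, (c i : ℝ) * (2 ^ ea N (g i) (l i) * 3 ^ eb N (g i) (l i))| ≤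
      (2 : ℝ) ^ (-((C - Real.log 6 / Real.log 2) / 2) * N) := by
    refine le_trans ?_ (h2 N hN2)
    have h6 : (0 : ℝ) < 6 ^ N := by positivity
    have e : (P : ℝ) - ∑ i, (c i : ℝ) * (2 ^ ea N (g i) (l i) * 3 ^ eb N (g i) (l i)) =
        6 ^ N * ((P : ℝ) / 6 ^ N - ∑ t, (c t : ℝ) / (gb (g t) : ℝ) ^ l t) := by
      rw [mul_sub, mul_div_cancel₀ _ h6.ne', Finset.mul_sum]
      congr 1
      refine Finset.sum_congr rfl fun i _ => ?_
      rw [ex_eq]
      ring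
    rw [e, abs_mul, abs_of_pos h6]
    exact mul_le_mul_of_nonneg_left hyp h6.le
  obtain ⟨u, huF, hu⟩ := h1 N hN1 (fun i => ea N (g i) (l i)) (fun i => eb N (g i) (l i)) P
    (fun i => ex_le (g i) (hl i)) hb
  have hu' : u.1 * P + ∑ i, u.2 i * (6 ^ N / (gb (g i) : ℚ) ^ l i) = 0 := by
    rw [← hu]
    congr 1
    refine Finset.sum_congr rfl fun i _ => ?_
    rw [← ex_eq]
  obtain ⟨w, hw, hw2⟩ := hU u (hF u huF) N (le_trans (Finset.le_sup huF) hN3) l P hl hyp hu'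
  exact ⟨w, Finset.mem_biUnion.2 ⟨u, huF, hw⟩, hw2⟩

theorem rel_zero (C : ℝ) : RelR C 0 := by
  intro c g H K v hv
  exact absurd (Subsingleton.elim _ _) hv

theorem rel_succ (C : ℝ) (r : ℕ) (ih : ExR C r) : RelR C (r + 1) := by
  intro c g H K v hv
  obtain ⟨t0, ht0⟩ : ∃ t0, v t0 ≠ 0 := by
    by_contra hc
    push Not at hc
    exact hv (funext hc)
  obtain ⟨N0, U, h1⟩ := ih (fun j => c (t0.succAbove j) - c t0 * v (t0.succAbove j) / v t0)
    (fun j => g (t0.succAbove j)) H K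
  refine ⟨N0, U.image fun u => Fin.insertNth (α := fun _ => ℚ) t0 0 u,
    fun N hN l P hl hyp hrel => ?_⟩
  rw [Fin.sum_univ_succAbove _ t0] at hrel
  have hrel2 : (1 : ℚ) / (gb (g t0) : ℚ) ^ l t0 =
      - ∑ j, (v (t0.succAbove j) / v t0) / (gb (g (t0.succAbove j)) : ℚ) ^ l (t0.succAbove j) := by
    have e1 : ∑ j, (v (t0.succAbove j) / v t0) /
        (gb (g (t0.succAbove j)) : ℚ) ^ l (t0.succAbove j) =
        (∑ j, v (t0.succAbove j) / (gb (g (t0.succAbove j)) : ℚ) ^ l (t0.succAbove j)) / v t0 := by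
      rw [Finset.sum_div]
      refine Finset.sum_congr rfl fun j _ => ?_
      ring
    rw [e1, eq_neg_iff_add_eq_zero]
    have e2 : (1 : ℚ) / (gb (g t0) : ℚ) ^ l t0 = (v t0 / (gb (g t0) : ℚ) ^ l t0) / v t0 := by
      field_simp
    rw [e2, ← add_div, hrel, zero_div]
  have hrel3 : ∑ t, c t / (gb (g t) : ℚ) ^ l t =
      ∑ j, (c (t0.succAbove j) - c t0 * v (t0.succAbove j) / v t0) /
        (gb (g (t0.succAbove j)) : ℚ) ^ l (t0.succAbove j) := by
    rw [Fin.sum_univ_succAbove _ t0,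
      show c t0 / (gb (g t0) : ℚ) ^ l t0 = c t0 * (1 / (gb (g t0) : ℚ) ^ l t0) by ring, hrel2,
      mul_neg, Finset.mul_sum, ← Finset.sum_neg_distrib, ← Finset.sum_add_distrib]
    refine Finset.sum_congr rfl fun j _ => ?_
    ring
  have hyp2 : Hyp (fun j => c (t0.succAbove j) - c t0 * v (t0.succAbove j) / v t0)
      (fun j => g (t0.succAbove j)) C K N (fun j => l (t0.succAbove j)) P := by
    unfold Hyp at hyp ⊢
    have e : ∑ t, (c t : ℝ) / (gb (g t) : ℝ) ^ l t =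
        ∑ j, ((c (t0.succAbove j) - c t0 * v (t0.succAbove j) / v t0 : ℚ) : ℝ) /
        (gb (g (t0.succAbove j)) : ℝ) ^ l (t0.succAbove j) := by
      have := congrArg (fun q : ℚ => (q : ℝ)) hrel3
      simpa only [Rat.cast_sum, Rat.cast_div, Rat.cast_pow, Rat.cast_natCast] using this
    rw [← e]
    exact hyp
  obtain ⟨u, hu, hu2⟩ := h1 N hN (fun j => l (t0.succAbove j)) P (fun j => hl _) hyp2
  refine ⟨_, Finset.mem_image_of_mem _ hu, ?_⟩
  rw [hu2, Fin.sum_univ_succAbove _ t0]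
  simp

theorem exR (h : SubQ) (C : ℝ) (hC : Real.log 6 / Real.log 2 < C) : ∀ r, ExR C r
  | 0 => step h C hC 0 (rel_zero C)
  | r + 1 => step h C hC (r + 1) (rel_succ C r (exR h C hC r))

/-- PACKET RG-E1 -/
theorem gExact (h : SubQ) : Exact := by
  intro r c g H C K hC
  exact exR h C hC r c g H K

end Pool.Agent.Helper9.Rg
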